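import Mathlib
import Pool.Agent.R636.FolK

/-!
MP_60a09a_al, Q1: for `g(x) = 2^(x-1)` the constant `K_g` equals `2`.

`R636.Fol.K` is the infimum, in the extended reals, of `liminf g⁻¹(Føl(n)) / n` over all groups
`Γ` with a finite symmetric generating set `S` such that `γ_S(n-1) ≥ 2^(n-1)` for all `n ≥ 1`.
-/

namespace Pool.Agent.Results.MP_60a09a_al.KgEqualsTwo

theorem result : R636.Fol.K = 2 := R636.Fol.K_eq_two

end Pool.Agent.Results.MP_60a09a_al.KgEqualsTwo
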